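import Pool.Agent.H81.NCH.Stmts
import Pool.Agent.H81.NCH.Base

/-!
# NCH: FAR (a boundary at nearly the level of a core point, outside of the node)
-/

set_option autoImplicit false

namespace Pool.Agent.H81.NCH

namespace FAR

variable {h m : ℕ}

theorem kap_zero (h m e i r : ℕ) : kap h m e i r 0 = 0 := by
  unfold kap
  simp

theorem sgn_cases (e i : ℕ) : sgn e i = 1 ∨ sgn e i = -1 := by
  unfold sgn
  split_ifs
  · exact neg_one_pow_eq_or ℤ (e + 1)
  · exact neg_one_pow_eq_or ℤ e

theorem sgn_brother (e i : ℕ) : sgn e (2 * i + 1) = - sgn e (2 * i) := by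
  unfold sgn
  have h1 : (2 * i + 1) % 2 = 1 := by omega
  have h2 : ¬ (2 * i) % 2 = 1 := by omega
  rw [if_pos h1, if_neg h2, pow_succ]
  ring

theorem bas_brother (h m : ℕ) (r : ℕ → ℕ → ℕ) (e i : ℕ) :
    bas h m r (e + 1) (2 * i + 1) = bas h m r (e + 1) (2 * i) := by
  unfold bas
  apply Finset.sum_congr rfl
  intro D hD
  rw [Finset.mem_Ico] at hD
  have h1 : (2 * i + 1) / 2 ^ (e + 1 - D) = (2 * i) / 2 ^ (e + 1 - D) := by
    have h2 : e + 1 - D = 1 + (e - D) := by omega
    rw [h2, pow_add, ← Nat.div_div_eq_div_mul, ← Nat.div_div_eq_div_mul]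
    congr 1
    omega
  rw [h1]

/-- the level at the ends of the interval of a node -/
theorem phi_end (hLVF : LVFStmt) (r : ℕ → ℕ → ℕ) {e i t : ℕ} (he : 1 ≤ e) (he' : e ≤ h)
    (hi : i < 2 ^ e) (ht : t = st h m e i ∨ t = en h m e i) : phi h m r t = bas h m r e i := by
  have h1 := hLVF h m r e i t he he' hi (by
    rcases ht with ht | ht
    · refine ⟨true, ?_⟩
      unfold InWall
      rw [if_pos rfl, ht]
      exact ⟨le_rfl, st_le_cs e i⟩
    · refine ⟨false, ?_⟩
      unfold InWall
      rw [if_neg (by decide), ht]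
      exact ⟨ce_le_en e i, le_rfl⟩)
  rw [h1, idx_outside (by
    rcases ht with ht | ht
    · exact Or.inl (le_of_eq ht)
    · exact Or.inr (le_of_eq ht.symm)), kap_zero]
  simp

/-- outside of the interval of `(e + 1, i)` but in the core of its parent: the sign of the level -/
theorem outside (hLVG : LVGStmt) (hLVF : LVFStmt) {r : ℕ → ℕ → ℕ} (hm : 1 ≤ m) (hr : RB m r)
    {e i t : ℕ} (he : e + 1 ≤ h) (hi : i < 2 ^ (e + 1)) (h1 : cs h m e (i / 2) ≤ t)
    (h2 : t ≤ ce h m e (i / 2)) (h3 : t ≤ st h m (e + 1) i ∨ en h m (e + 1) i ≤ t) :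
    sgn (e + 1) i * (phi h m r t - bas h m r (e + 1) i) ≤ 0 := by
  have hcase : i = 2 * (i / 2) ∨ i = 2 * (i / 2) + 1 := by omega
  generalize hj : i / 2 = j at *
  rcases hcase with hc | hc
  · -- left child
    subst hc
    rcases h3 with h3 | h3
    · rw [st_left] at h3
      have h4 : phi h m r t = bas h m r (e + 1) (2 * j) := by
        apply phi_end hLVF r (by omega) he hi
        left
        rw [st_left]
        omega
      rw [h4]
      simp
    · rw [en_left] at h3
      have hi' : 2 * j + 1 < 2 ^ (e + 1) := by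
        rw [pow_succ] at hi ⊢
        omega
      have h4 := (hLVG h m r (e + 1) (2 * j + 1) t hm hr (by omega) he hi'
        (by rw [st_right]; exact h3) (by rw [en_right (by omega)]; exact h2)).1
      rw [sgn_brother, bas_brother] at h4
      linarith
  · subst hc
    rcases h3 with h3 | h3
    · rw [st_right] at h3
      have hi' : 2 * j < 2 ^ (e + 1) := by omega
      have h4 := (hLVG h m r (e + 1) (2 * j) t hm hr (by omega) he hi'
        (by rw [st_left]; exact h1) (by rw [en_left]; exact h3)).1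
      rw [sgn_brother, bas_brother]
      linarith
    · rw [en_right (by omega)] at h3
      have h4 : phi h m r t = bas h m r (e + 1) (2 * j + 1) := by
        apply phi_end hLVF r (by omega) he hi
        right
        rw [en_right (by omega)]
        omega
      rw [h4]
      simp

/-- a point of the core of a descendant and a point outside have very different levels -/
theorem contra (hLVG : LVGStmt) (hLVF : LVFStmt) {r : ℕ → ℕ → ℕ} (hm : 1 ≤ m) (hr : RB m r)
    {e i E x t c : ℕ} (he : e + 1 ≤ h) (hi : i < 2 ^ (e + 1)) (h1 : cs h m e (i / 2) ≤ t)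
    (h2 : t ≤ ce h m e (i / 2)) (h3 : t ≤ st h m (e + 1) i ∨ en h m (e + 1) i ≤ t)
    (hin : Inside (e + 1) i E x) (hE : E ≤ h) (hc1 : cs h m E x ≤ c) (hc2 : c ≤ ce h m E x)
    (hlev : |phi h m r c - phi h m r t| ≤ (KK h : ℤ)) : False := by
  have h4 := outside hLVG hLVF hm hr he hi h1 h2 h3
  have h5 := core_nested (m := m) hin hE
  have h6 := st_le_cs (h := h) (m := m) (e + 1) i
  have h7 := ce_le_en (h := h) (m := m) (e + 1) i
  have h8 := (hLVG h m r (e + 1) i c hm hr (by omega) he hi (by omega) (by omega)).2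
    (by omega) (by omega)
  have h9 : (0 : ℤ) < KK h := by
    unfold KK
    positivity
  rw [abs_le] at hlev
  rcases sgn_cases (e + 1) i with hs | hs <;> rw [hs] at h4 h8 <;> linarith [hlev.1, hlev.2]

/-- the ancestors of `(E, x)` -/
theorem anc_lt {E x D : ℕ} (hD : D ≤ E) (hx : x < 2 ^ E) : x / 2 ^ (E - D) < 2 ^ D := by
  have h1 : Inside D (x / 2 ^ (E - D)) E x := ⟨hD, rfl⟩
  exact h1.pow_lt hx

theorem anc_parent {E x D : ℕ} (hD : D + 1 ≤ E) :
    x / 2 ^ (E - (D + 1)) / 2 = x / 2 ^ (E - D) := by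
  rw [Nat.div_div_eq_div_mul]
  congr 1
  have h1 : E - D = (E - (D + 1)) + 1 := by omega
  rw [h1, pow_succ]

end FAR

open FAR in
theorem far_thm (hLVG : LVGStmt) (hLVF : LVFStmt) : FARStmt := by
  intro h m r E x c b hm hr hE1 hE hx hc1 hc2 hb hlev
  constructor
  · intro hen
    -- the first ancestor which does not contain `b` in the sense `b ≤ ce`
    have hex : ∃ D, D ≤ E ∧ ce h m D (x / 2 ^ (E - D)) < b := by
      refine ⟨E, le_rfl, ?_⟩
      have h1 : x / 2 ^ (E - E) = x := by simp
      rw [h1]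
      have h2 := en_def (h := h) (m := m) E x
      have h3 := Wd_pos h m (h - E)
      omega
    classical
    obtain ⟨hF1, hF2⟩ := Nat.find_spec hex
    have hFmin : ∀ D, D < Nat.find hex → ¬ (D ≤ E ∧ ce h m D (x / 2 ^ (E - D)) < b) :=
      fun D hD => Nat.find_min hex hD
    generalize Nat.find hex = F at hF1 hF2 hFmin
    have hF0 : 1 ≤ F := by
      rcases Nat.eq_zero_or_pos F with h0 | h0
      · subst h0
        rw [ce_root] at hF2
        omega
      · exact h0
    obtain ⟨G, rfl⟩ : ∃ G, F = G + 1 := ⟨F - 1, by omega⟩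
    have hG : b ≤ ce h m G (x / 2 ^ (E - G)) := by
      have h1 := hFmin G (by omega)
      by_contra h2
      exact h1 ⟨by omega, by omega⟩
    have hpar := anc_parent (x := x) hF1
    have hlt := anc_lt hF1 hx
    have hin : Inside (G + 1) (x / 2 ^ (E - (G + 1))) E x := ⟨hF1, rfl⟩
    by_cases hbe : b ≤ en h m (G + 1) (x / 2 ^ (E - (G + 1))) ∧ G + 1 < E
    · exact ⟨G + 1, by omega, hbe.2, hF2, hbe.1⟩
    · exfalso
      have h3 : en h m (G + 1) (x / 2 ^ (E - (G + 1))) ≤ b := by
        by_cases h4 : G + 1 < E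
        · by_contra h5
          exact hbe ⟨by omega, h4⟩
        · have h5 : G + 1 = E := by omega
          rw [h5]
          have h6 : x / 2 ^ (E - E) = x := by simp
          rw [h6]
          exact hen
      have h7 := cs_le_ce (h := h) (m := m) (G + 1) (x / 2 ^ (E - (G + 1)))
      have h8 := core_nested (h := h) (m := m) (e := G) (i := x / 2 ^ (E - G)) (e' := G + 1)
        (i' := x / 2 ^ (E - (G + 1))) ⟨by omega, by
          have : G + 1 - G = 1 := by omega
          rw [this, pow_one]
          exact hpar⟩ (by omega)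
      exact contra hLVG hLVF hm hr (e := G) (i := x / 2 ^ (E - (G + 1))) (E := E) (x := x)
        (t := b) (c := c) (by omega) hlt (by rw [hpar]; omega) (by rw [hpar]; exact hG)
        (Or.inr h3) hin hE hc1 hc2 hlev
  · intro hst
    have hex : ∃ D, D ≤ E ∧ b < cs h m D (x / 2 ^ (E - D)) := by
      refine ⟨E, le_rfl, ?_⟩
      have h1 : x / 2 ^ (E - E) = x := by simp
      rw [h1]
      have h2 := cs_eq_st (h := h) (m := m) hE1 x
      have h3 := Wd_pos h m (h - E)
      omega
    classical
    obtain ⟨hF1, hF2⟩ := Nat.find_spec hex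
    have hFmin : ∀ D, D < Nat.find hex → ¬ (D ≤ E ∧ b < cs h m D (x / 2 ^ (E - D))) :=
      fun D hD => Nat.find_min hex hD
    generalize Nat.find hex = F at hF1 hF2 hFmin
    have hF0 : 1 ≤ F := by
      rcases Nat.eq_zero_or_pos F with h0 | h0
      · subst h0
        rw [cs_root] at hF2
        omega
      · exact h0
    obtain ⟨G, rfl⟩ : ∃ G, F = G + 1 := ⟨F - 1, by omega⟩
    have hG : cs h m G (x / 2 ^ (E - G)) ≤ b := by
      have h1 := hFmin G (by omega)
      by_contra h2
      exact h1 ⟨by omega, by omega⟩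
    have hpar := anc_parent (x := x) hF1
    have hlt := anc_lt hF1 hx
    have hin : Inside (G + 1) (x / 2 ^ (E - (G + 1))) E x := ⟨hF1, rfl⟩
    by_cases hbe : st h m (G + 1) (x / 2 ^ (E - (G + 1))) ≤ b ∧ G + 1 < E
    · exact ⟨G + 1, by omega, hbe.2, hbe.1, hF2⟩
    · exfalso
      have h3 : b ≤ st h m (G + 1) (x / 2 ^ (E - (G + 1))) := by
        by_cases h4 : G + 1 < E
        · by_contra h5
          exact hbe ⟨by omega, h4⟩
        · have h5 : G + 1 = E := by omega
          rw [h5]
          have h6 : x / 2 ^ (E - E) = x := by simp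
          rw [h6]
          exact hst
      have h7 := cs_le_ce (h := h) (m := m) (G + 1) (x / 2 ^ (E - (G + 1)))
      have h8 := core_nested (h := h) (m := m) (e := G) (i := x / 2 ^ (E - G)) (e' := G + 1)
        (i' := x / 2 ^ (E - (G + 1))) ⟨by omega, by
          have : G + 1 - G = 1 := by omega
          rw [this, pow_one]
          exact hpar⟩ (by omega)
      exact contra hLVG hLVF hm hr (e := G) (i := x / 2 ^ (E - (G + 1))) (E := E) (x := x)
        (t := b) (c := c) (by omega) hlt (by rw [hpar]; exact hG) (by rw [hpar]; omega)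
        (Or.inl h3) hin hE hc1 hc2 hlev

end Pool.Agent.H81.NCH
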