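import Pool.Agent.H81.NCH.Stmts
import Pool.Agent.H81.NCH.Base

/-!
# NCH: RCI (averages of one stop gate)
-/

set_option autoImplicit false

namespace Pool.Agent.H81.NCH

universe u

namespace RCI

open Pool.Agent.H80

/-- the full level outside of the interval of a node -/
theorem psi_loc (hLOC : LOCStmt) {h m : ℕ} {r r' : ℕ → ℕ → ℕ} {e i t : ℕ} (he : 1 ≤ e)
    (he' : e ≤ h) (hi : i < 2 ^ e) (ht : t ≤ st h m e i ∨ en h m e i ≤ t)
    (hr : ∀ e' i', ¬ Inside e i e' i' → r e' i' = r' e' i') : psi h m r t = psi h m r' t := by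
  unfold psi
  rw [hLOC h m r r' e i t he he' hi ht hr]

theorem gfac_loc (hLOC : LOCStmt) {h m : ℕ} {r r' : ℕ → ℕ → ℕ} {e i E y a c b : ℕ} (he : 1 ≤ E)
    (he' : E ≤ h) (hi : y < 2 ^ E) (ha : a ≤ st h m E y ∨ en h m E y ≤ a)
    (hc : c ≤ st h m E y ∨ en h m E y ≤ c) (hb : b ≤ st h m E y ∨ en h m E y ≤ b)
    (hr : ∀ e' i', ¬ Inside E y e' i' → r e' i' = r' e' i') :
    gfac h m r e i a c b = gfac h m r' e i a c b := by
  have h1 := psi_loc hLOC he he' hi ha hr
  have h2 := psi_loc hLOC he he' hi hc hr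
  have h3 := psi_loc hLOC he he' hi hb hr
  unfold gfac Alive
  rw [h1, h2, h3]

theorem gfac_nonneg (h m : ℕ) (r : ℕ → ℕ → ℕ) (e i a c b : ℕ) : 0 ≤ gfac h m r e i a c b := by
  unfold gfac
  split_ifs
  · positivity
  · exact zero_le_one
  · exact le_rfl

end RCI

open Pool.Agent.H80 RCI in
theorem rci_thm (hPOT : POTStmt) (hLOC : LOCStmt) (hAVA : AVAStmt) (hAVT : AVTStmt)
    (hAVI : AVIStmt) (hRRF : RRFStmt) (hTYP : TYPStmt.{u}) : RCIStmt.{u} := by
  intro K _ h m n _ D X j side e i e' i' x a ω hm hn hcl hi hin he' hx hdx hpot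
  obtain ⟨hx0, yl, yr, hg⟩ := hx
  obtain ⟨hd1, hd2, hdeg, hval⟩ := ((hTYP K n D X x a).2.2 hx0).2.2.2 yl yr hg
  have hl : lft D x = yl := by
    unfold lft
    rw [hg]
  have hr : rgt D x = yr := by
    unfold rgt
    rw [hg]
  rw [hl, hr]
  set c := a + X.deg yl with hc
  set b := c + X.deg yr with hb
  have hbx : a + X.deg x = b := by omega
  rw [hbx] at hdx hpot
  obtain ⟨hA1, hA2, hA3, hA4, hA5, hA6⟩ := hAVA h m (Inside e i) hm
  have hi' : i' < 2 ^ e' := hin.lt_pow hi
  by_cases hstop : Stop h m e' i' a c b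
  · -- the main case
    have hbound : ∀ ω' : Om h m, avg (Inside e i) (fun ω' => gfac h m (rr ω') e' i' a c b *
        (if side then rho h m (rr ω') a c (FF X yl a)
          else rho h m (rr ω') c b (FF X yr c))) ω' ≤
        avg (Inside e i) (fun ω' => gfac h m (rr ω') e' i' a c b) ω' *
        (((Sb X (if side then yl else yr)).card : ℝ) * (2 ^ (12 * h + 36) / (m : ℝ)) ^ j) := by
      intro ω'
      obtain ⟨⟨y1, hy1, hin1, hy2, hy3, hy4, hy5, hy6⟩, ⟨z1, hz1, hinz, hz2, hz3, hz4, hz5, hz6⟩⟩ :=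
        hPOT h m e' i' a c b hm he' hi' hdx hstop
      -- common part
      have main : ∀ (y : ℕ) (R : Om h m → ℝ) (B : ℝ), y < 2 ^ (e' + 10) →
          Inside e' i' (e' + 10) y →
          (a ≤ st h m (e' + 10) y ∨ en h m (e' + 10) y ≤ a) →
          (c ≤ st h m (e' + 10) y ∨ en h m (e' + 10) y ≤ c) →
          (b ≤ st h m (e' + 10) y ∨ en h m (e' + 10) y ≤ b) →
          (∀ ω'' : Om h m, avg (Inside (e' + 10) y) R ω'' ≤ B) →
          avg (Inside e i) (fun ω' => gfac h m (rr ω') e' i' a c b * R ω') ω' ≤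
          avg (Inside e i) (fun ω' => gfac h m (rr ω') e' i' a c b) ω' * B := by
        intro y R B hy hiny ha' hc' hb' hR
        have hsub : ∀ e'' i'', Inside (e' + 10) y e'' i'' → Inside e i e'' i'' :=
          fun e'' i'' h1 => hin.trans (hiny.trans h1)
        rw [← hAVT h m (Inside e i) (Inside (e' + 10) y) _ ω' hm hsub]
        have h1 : ∀ ω'' : Om h m,
            avg (Inside (e' + 10) y) (fun ω' => gfac h m (rr ω') e' i' a c b * R ω') ω'' ≤
              B * gfac h m (rr ω'') e' i' a c b := by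
          intro ω''
          rw [hAVI h m (Inside (e' + 10) y) R (fun ω' => gfac h m (rr ω') e' i' a c b) ω'' hm
            (fun η => gfac_loc hLOC (by omega) he' hy ha' hc' hb'
              (fun e1 i1 h1 => (hRRF h m ω'' hm).2 (Inside (e' + 10) y) η e1 i1 h1))]
          rw [mul_comm B]
          exact mul_le_mul_of_nonneg_left (hR ω'') (gfac_nonneg _ _ _ _ _ _ _ _)
        refine (hA1 _ _ ω' h1).trans ?_
        rw [hA3, mul_comm]
      cases side with
      | true =>
        simp only [if_true]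
        refine main y1 _ _ hy1 hin1 (Or.inl hy4) (Or.inr hy5) (Or.inr (by omega)) ?_
        intro ω''
        exact hcl (e' + 10) y1 yl a ω'' hy1 he' hd1 hy2 hy3 (by omega) (by rw [← hc]; linarith)
      | false =>
        simp only [Bool.false_eq_true, if_false]
        refine main z1 _ _ hz1 hinz (Or.inl (by omega)) (Or.inl hz4) (Or.inr hz5) ?_
        intro ω''
        exact hcl (e' + 10) z1 yr c ω'' hz1 he' hd2 hz2 hz3 (by omega) (by rw [← hb]; linarith)
    exact hbound ω
  · have h0 : ∀ ω' : Om h m, gfac h m (rr ω') e' i' a c b = 0 := by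
      intro ω'
      unfold gfac
      rw [if_neg (fun h1 => hstop h1.2.2)]
    simp only [h0, zero_mul]
    rw [hA2]
    simp

end Pool.Agent.H81.NCH
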